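import Pool.Agent.Helper1.KL.GeneralB

set_option autoImplicit false

/-!
Project KL (MP_0b9e0b_ag), KL-5: a point of `X` with given coordinates `x` and given `e` over a
finite separable extension.
-/

namespace Pool.Agent.Helper78.KL

open Pool.Agent.Helper1.KL Pool.Agent.Helper16

/-- the roots of `u ^ p = u` are in the prime field -/
theorem exists_cast {p : ℕ} [Fact p.Prime] {F : Type} [Field F] [CharP F p] {u : F}
    (hu : u ^ p = u) : ∃ c : ZMod p, u = c.cast := by
  have h1 := (Subfield.mem_bot_iff_pow_eq_self (F := F) (p := p) (x := u)).2 hu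
  rw [← ZMod.fieldRange_castHom_eq_bot p] at h1
  obtain ⟨c, hc⟩ := h1
  exact ⟨c, hc.symm⟩

/-- the field-theoretic part -/
theorem lift_core {p : ℕ} [Fact p.Prime] {n : ℕ} (L : Type) [Field L] [CharP L p]
    (I : Finset (Fin n)) (ρ : Fin n → ZMod p) (c : Fin n → L) (ε : L)
    (hρ : ∀ i ∉ I, ρ i = 0) (h0 : ρ = 0 → ε = 0)
    (he : ε ^ p - ε = ∑ i ∈ I, (ρ i).cast * c i) :
    ∃ (M : Type) (_ : Field M) (_ : Algebra L M) (_ : FiniteDimensional L M)
      (_ : Algebra.IsSeparable L M) (y : Fin n → M),
      (∀ i, y i ^ p - y i = algebraMap L M (c i)) ∧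
      ∑ i ∈ I, (ρ i).cast * y i = algebraMap L M ε := by
  classical
  have hp : p.Prime := Fact.out
  let Ω := SeparableClosure L
  have hcΩ : CharP Ω p := charP_of_injective_algebraMap (algebraMap L Ω).injective p
  -- roots
  have h1 : ∀ i, ∃ y : Ω, y ^ p - y = algebraMap L Ω (c i) := by
    intro i
    obtain ⟨y, hy⟩ := IsSepClosed.exists_root_C_mul_X_pow_add_C_mul_X_add_C' (k := Ω) p p
      1 (-1) (-(algebraMap L Ω (c i))) dvd_rfl hp.two_le (by simp)
    exact ⟨y, by linear_combination hy⟩
  choose y hy using h1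
  -- the difference of the sum of the roots and `ε`
  have h2 : (∑ i ∈ I, (ρ i).cast * y i - algebraMap L Ω ε) ^ p =
      ∑ i ∈ I, (ρ i).cast * y i - algebraMap L Ω ε := by
    rw [sub_pow_char, sum_pow_char p, ← map_pow]
    have h3 : ∑ i ∈ I, ((ρ i).cast * y i : Ω) ^ p =
        ∑ i ∈ I, (ρ i).cast * y i + ∑ i ∈ I, (ρ i).cast * algebraMap L Ω (c i) := by
      rw [← Finset.sum_add_distrib]
      refine Finset.sum_congr rfl fun i _ => ?_
      rw [mul_pow, cast_pow_p, ← hy i]
      ring
    have h4 : ∑ i ∈ I, (ρ i).cast * algebraMap L Ω (c i) =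
        algebraMap L Ω (∑ i ∈ I, (ρ i).cast * c i) := by
      rw [map_sum]
      refine Finset.sum_congr rfl fun i _ => ?_
      rw [map_mul]
      congr 1
      have h5 : ((ρ i).cast : Ω) = ZMod.castHom (dvd_refl p) Ω (ρ i) := rfl
      have h6 : ((ρ i).cast : L) = ZMod.castHom (dvd_refl p) L (ρ i) := rfl
      rw [h5, h6, ← RingHom.comp_apply]
      congr 1
      exact Subsingleton.elim _ _
    rw [h3, h4, ← he, map_sub, map_pow]
    ring
  obtain ⟨d, hd⟩ := exists_cast h2
  -- corrected roots
  obtain ⟨h, hh⟩ : ∃ h : Fin n → ZMod p, ∑ i ∈ I, ρ i * h i = -d := by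
    by_cases hr : ρ = 0
    · refine ⟨0, ?_⟩
      have h3 : (d.cast : Ω) = 0 := by
        rw [← hd, hr, h0 hr]
        simp
      have h4 : ZMod.castHom (dvd_refl p) Ω d = 0 := h3
      rw [map_eq_zero] at h4
      rw [h4]
      simp
    · obtain ⟨i₀, hi₀⟩ : ∃ i₀, ρ i₀ ≠ 0 := by
        by_contra hcon
        push Not at hcon
        exact hr (funext hcon)
      have hI : i₀ ∈ I := by
        by_contra hcon
        exact hi₀ (hρ i₀ hcon)
      refine ⟨Pi.single i₀ (-d / ρ i₀), ?_⟩
      rw [Finset.sum_eq_single i₀]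
      · rw [Pi.single_eq_same]
        field_simp
      · intro i _ hi
        rw [Pi.single_eq_of_ne hi, mul_zero]
      · intro hcon
        exact absurd hI hcon
  let y' : Fin n → Ω := fun i => y i + (h i).cast
  have hy' : ∀ i, y' i ^ p - y' i = algebraMap L Ω (c i) := by
    intro i
    show (y i + (h i).cast) ^ p - (y i + (h i).cast) = _
    rw [add_pow_char, cast_pow_p, ← hy i]
    ring
  have hsum : ∑ i ∈ I, (ρ i).cast * y' i = algebraMap L Ω ε := by
    have h3 : ∑ i ∈ I, (ρ i).cast * y' i =
        ∑ i ∈ I, (ρ i).cast * y i + ∑ i ∈ I, ((ρ i).cast * (h i).cast : Ω) := by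
      rw [← Finset.sum_add_distrib]
      refine Finset.sum_congr rfl fun i _ => ?_
      show _ * (y i + (h i).cast) = _
      ring
    have h4 : ∑ i ∈ I, ((ρ i).cast * (h i).cast : Ω) = -(d.cast : Ω) := by
      have h5 := congrArg (ZMod.castHom (dvd_refl p) Ω) hh
      rw [map_sum, map_neg] at h5
      rw [show (d.cast : Ω) = ZMod.castHom (dvd_refl p) Ω d from rfl, ← h5]
      refine Finset.sum_congr rfl fun i _ => ?_
      rw [map_mul]
      rfl
    rw [h3, h4, ← hd]
    ring
  -- the field generated by the roots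
  let M := IntermediateField.adjoin L (Set.range y')
  have hfin : FiniteDimensional L M := by
    apply IntermediateField.finiteDimensional_adjoin
    rintro x _
    exact Algebra.IsIntegral.isIntegral x
  refine ⟨M, inferInstance, inferInstance, hfin, inferInstance,
    fun i => ⟨y' i, IntermediateField.subset_adjoin L _ ⟨i, rfl⟩⟩, ?_, ?_⟩
  · intro i
    apply (algebraMap M Ω).injective
    rw [map_sub, map_pow, ← IsScalarTower.algebraMap_apply L M Ω]
    exact hy' i
  · apply (algebraMap M Ω).injective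
    rw [map_sum, ← IsScalarTower.algebraMap_apply L M Ω, ← hsum]
    refine Finset.sum_congr rfl fun i _ => ?_
    rw [map_mul]
    congr 1
    have hcM : CharP M p := charP_of_injective_algebraMap (algebraMap L M).injective p
    have h5 : ((ρ i).cast : Ω) = ZMod.castHom (dvd_refl p) Ω (ρ i) := rfl
    have h6 : ((ρ i).cast : M) = ZMod.castHom (dvd_refl p) M (ρ i) := rfl
    rw [h5, h6, ← RingHom.comp_apply]
    congr 1
    exact Subsingleton.elim _ _

/-- **KL-5** -/
theorem modLift (k : Type) [Field k] (p : ℕ) [Fact p.Prime] [CharP k p] {n : ℕ} (b : Fin n → k) :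
    ModLift k p b := by
  classical
  intro L _ _ I ρ x ε hρ h0 hx he
  have hcL : CharP L p := charP_alg (k := k) L
  set t : L := algebraMap (RatFunc k) L RatFunc.X with ht
  let c : Fin n → L := fun i => t * x i + algebraMap (RatFunc k) L (RatFunc.C (b i)) * (x i)⁻¹
  have he' : ε ^ p - ε = ∑ i ∈ I, (ρ i).cast * c i := by
    rw [he, Finset.mul_sum, ← Finset.sum_add_distrib]
    refine Finset.sum_congr rfl fun i _ => ?_
    show _ = _ * (t * x i + algebraMap (RatFunc k) L (RatFunc.C (b i)) * (x i)⁻¹)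
    ring
  obtain ⟨M, iM, iLM, hfin, hsep, y, hy, hsum⟩ := lift_core L I ρ c ε hρ h0 he'
  let iKM : Algebra (RatFunc k) M := ((algebraMap L M).comp (algebraMap (RatFunc k) L)).toAlgebra
  have htow : IsScalarTower (RatFunc k) L M := IsScalarTower.of_algebraMap_eq fun _ => rfl
  refine ⟨M, iM, iLM, iKM, htow, hfin, hsep,
    fun j => match j with
      | Sum.inl i => if i ∈ I then some (algebraMap L M (x i)) else none
      | Sum.inr i => if i ∈ I then some (y i) else none, ?_, ?_, ?_, ?_⟩
  · intro i
    by_cases hi : i ∈ I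
    · right
      refine ⟨algebraMap L M (x i), y i, by simp [hi], by simp [hi], ?_⟩
      rw [hy i, IsScalarTower.algebraMap_apply (RatFunc k) L M RatFunc.X,
        IsScalarTower.algebraMap_apply (RatFunc k) L M (RatFunc.C (b i)), ← ht]
      show _ * algebraMap L M (t * x i + algebraMap (RatFunc k) L (RatFunc.C (b i)) * (x i)⁻¹) = _
      rw [← map_mul, ← map_pow, ← map_mul, ← map_add]
      congr 1
      have := hx i hi
      field_simp
    · left
      exact ⟨by simp [hi], by simp [hi]⟩
  · intro i hi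
    exact ⟨by simp [hi], by simp [hi]⟩
  · intro i hi
    simp [hi]
  · unfold ec yc
    rw [← hsum, ← Finset.sum_subset (Finset.subset_univ I)]
    · refine Finset.sum_congr rfl fun i hi => ?_
      simp [hi]
    · intro i _ hi
      rw [hρ i hi]
      simp

end Pool.Agent.Helper78.KL
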